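import Pool.Agent.H29.DPV.Mid
import Pool.Agent.H29.DPV.Sta
import Pool.Agent.H29.DPV.Exp

/-!
# DPW: all exponents, excluded primes (with helper94), definitions
-/

set_option autoImplicit false

namespace Pool.DPC

open Polynomial Complex

/-- `S` has infinitely many primes in every reduced residue class which is 1 modulo the powers of
primes of `Sg`. -/
def RichG (Sg S : Set ℕ) : Prop :=
  ∀ M a : ℕ, 0 < M → a.Coprime M →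
    (∀ l ∈ Sg, l.Prime → ∀ j : ℕ, l ^ j ∣ M → a ≡ 1 [MOD l ^ j]) →
    ∀ B : ℕ, ∃ p ∈ S, B < p ∧ p.Prime ∧ p ≡ a [MOD M]

/-- the same with large first coefficients -/
def RichCG (Sg S : Set ℕ) (c : Nat.Primes → ℂ) : Prop :=
  ∀ T : ℝ, RichG Sg {p | p ∈ S ∧ ∃ h : p.Prime, T < ‖c ⟨p, h⟩‖}

/-- the first order expansion for large primes -/
def Exp2 (d : ℕ) (R : Nat.Primes → ℂ → ℂ) (c : Nat.Primes → ℂ) : Prop :=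
  ∃ (K : ℝ) (B₀ : ℕ), ∀ l : Nat.Primes, B₀ < (l : ℕ) → ∀ t : ℂ, ‖t‖ = 1 →
    ‖R l t - (-1) ^ d * (t⁻¹) ^ d * (1 + c l * t / ((l : ℕ) : ℂ))‖ ≤ K / (l : ℕ)

/-- no prime in `Sg` -/
def Off (Sg : Set ℕ) (C : Set Nat.Primes) : Prop := ∀ l ∈ C, (l : ℕ) ∉ Sg

theorem RichCG.rich {Sg S : Set ℕ} {c : Nat.Primes → ℂ} (h : RichCG Sg S c) : RichG Sg S := by
  intro M a hM ha hl B
  obtain ⟨p, ⟨hp, -⟩, h1, h2, h3⟩ := h 0 M a hM ha hl B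
  exact ⟨p, hp, h1, h2, h3⟩

/-- DIRG -/
def DIRGStmt : Prop :=
  ∀ (Sg S : Set ℕ), RichG Sg S → ∀ (C : Set Nat.Primes), C.Finite → Off Sg C →
    ∀ (u : (l : Nat.Primes) → (ZMod (l : ℕ))ˣ)
    (q : Nat.Primes), u q = 1 → ∀ B : ℕ, ∃ p : Nat.Primes, (p : ℕ) ∈ S ∧ B < (p : ℕ) ∧
    (p : ℕ) % (4 * (q : ℕ)) = 1 ∧ p ∉ C ∧ ∀ φ : Ch, sup φ ⊆ C → ev φ (p : ℕ) = pair φ u

/-- the auxiliary primes -/
def Prov (Sg S : Set ℕ) (n : ℕ) (c : Nat.Primes → ℂ) : Prop :=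
  ∀ C : Set Nat.Primes, C.Finite → Off Sg C → ∀ q : Nat.Primes, (q : ℕ) ∣ n → ∀ u : Un, u q = 1 →
    ∀ (T : ℝ) (B : ℕ), ∃ (p : Nat.Primes) (χ : Ch), B < (p : ℕ) ∧ T < ‖c p‖ ∧ (p : ℕ) ∉ Sg ∧
      Ax S n q C u p χ ∧ ∀ B' : ℕ, ∃ (p' : Nat.Primes) (χ' : Ch), B' < (p' : ℕ) ∧
        Ax S n q (C ∪ {p}) u⁻¹ p' χ'

theorem ax_existsG (hD : DIRGStmt) (hA : AUXStmt) {Sg S : Set ℕ} (hS : RichG Sg S)
    {C : Set Nat.Primes} (hC : C.Finite) (hOff : Off Sg C) {u : Un} {q : Nat.Primes}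
    (hu : u q = 1) {n : ℕ} (hq : (q : ℕ) ∣ n) (B : ℕ) :
    ∃ (p : Nat.Primes) (χ : Ch), B < (p : ℕ) ∧ Ax S n q C u p χ := by
  obtain ⟨p, h1, h2, h3, h4, h5⟩ := hD Sg S hS C hC hOff u q hu B
  obtain ⟨χ, h6, h7, h8⟩ := hA n q q.2 hq p h3
  exact ⟨p, χ, h2, h1, h3, h4, h5, h6, h7, h8⟩

theorem fin_bd {Sg : Set ℕ} (h : Sg.Finite) : ∃ B : ℕ, ∀ p : ℕ, B < p → p ∉ Sg := by
  obtain ⟨B, hB⟩ := h.bddAbove
  exact ⟨B, fun p hp hpS => absurd (hB hpS) (not_le.2 hp)⟩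

theorem t_prov (hD : DIRGStmt) (hA : AUXStmt) {Sg S : Set ℕ} {c : Nat.Primes → ℂ}
    (hfin : Sg.Finite) (hS : RichCG Sg S c) (n : ℕ) : Prov Sg S n c := by
  obtain ⟨B₀, hB₀⟩ := fin_bd hfin
  intro C hC hOff q hq u hu T B
  obtain ⟨p, χ, hpB, hp⟩ := ax_existsG hD hA (hS T) hC hOff hu hq (max B B₀)
  obtain ⟨⟨hpS, hpr, hpT⟩⟩ : Nonempty ((p : ℕ) ∈ S ∧ ∃ h : (p : ℕ).Prime, T < ‖c ⟨p, h⟩‖) :=
    ⟨hp.mem⟩
  have hpSg : (p : ℕ) ∉ Sg := hB₀ _ ((le_max_right _ _).trans_lt hpB)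
  refine ⟨p, χ, (le_max_left _ _).trans_lt hpB, hpT, hpSg,
    ⟨hpS, hp.mod, hp.out, hp.ev, hp.tame, hp.sup, hp.ord⟩, fun B' => ?_⟩
  refine ax_existsG hD hA hS.rich (hC.union (Set.finite_singleton _)) ?_
    (by rw [Pi.inv_apply, hu, inv_one]) hq B'
  rintro l (hl | hl)
  · exact hOff l hl
  · rw [Set.mem_singleton_iff.1 hl]
    exact hpSg

end Pool.DPC
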