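import Pool.Agent.H29.DPW.Defs
import Pool.Agent.H29.DPT.BS

/-!
# DPW: the trivial character and the quadratic characters
-/

set_option autoImplicit false

namespace Pool.DPC

open Polynomial Complex

open BS in
/-- BS1G -/
theorem t_BS1G (hS : SUPStmt) (hE : EVPStmt) (hD : DIRGStmt) (hA : AUXStmt) {Sg T : Set ℕ}
    {n d : ℕ} {W : Ch → ℂ} {R : Nat.Primes → ℂ → ℂ} (hSg : Sg.Finite) (hT : RichG Sg T)
    (hn : 1 < n) (hR : Lim d R) (h1 : Eq1T T n W R) (h2 : Eq2T T n W R) : W 1 = 0 := by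
  have hS' := hS
  obtain ⟨-, hsd, hspow, hscop, -, htmul, htpow, -, hind⟩ := hS'
  have hE' := hE
  obtain ⟨-, hevp, hevn, -, -⟩ := hE'
  obtain ⟨q0, hq, hqn⟩ := Nat.exists_prime_and_dvd (show n ≠ 1 by omega)
  set q : Nat.Primes := ⟨q0, hq⟩ with hqdef
  have hqp : (q : ℕ).Prime := hq
  obtain ⟨B₁, hB₁⟩ := R_ne hR
  obtain ⟨B₂, hB₂⟩ := fin_bd hSg
  set B := max B₁ B₂ with hBdef
  have hB : ∀ l : Nat.Primes, B < (l : ℕ) → ∀ t : ℂ, ‖t‖ = 1 → R l t ≠ 0 := fun l hl =>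
    hB₁ l ((le_max_left _ _).trans_lt hl)
  have hBS : ∀ l : Nat.Primes, B < (l : ℕ) → (l : ℕ) ∉ Sg := fun l hl =>
    hB₂ l ((le_max_right _ _).trans_lt hl)
  obtain ⟨p₁, a1, b1, c1, -, -⟩ := hD Sg T hT ∅ Set.finite_empty (fun l hl => hl.elim) 1 q rfl B
  obtain ⟨p₂, a2, b2, c2, d2, e2⟩ := hD Sg T hT {p₁} (Set.finite_singleton _)
    (fun l hl => by rw [Set.mem_singleton_iff.1 hl]; exact hBS _ b1) 1 q rfl B
  obtain ⟨p₃, a3, b3, c3, d3, e3⟩ := hD Sg T hT {p₁, p₂} (Set.toFinite _)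
    (fun l hl => by
      rcases hl with hl | hl
      · rw [hl]; exact hBS _ b1
      · rw [Set.mem_singleton_iff.1 hl]; exact hBS _ b2) 1 q rfl B
  obtain ⟨χ₁, t1, s1, o1⟩ := hA n q hqp hqn p₁ c1
  obtain ⟨χ₂, t2, s2, o2⟩ := hA n q hqp hqn p₂ c2
  obtain ⟨χ₃, t3, s3, o3⟩ := hA n q hqp hqn p₃ c3
  have h12 : p₁ ≠ p₂ := fun h => d2 (by rw [← h]; rfl)
  have h13 : p₁ ≠ p₃ := fun h => d3 (by rw [← h]; exact Or.inl rfl)
  have h23 : p₂ ≠ p₃ := fun h => d3 (by rw [← h]; exact Or.inr rfl)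
  have hR1 : ∀ l : Nat.Primes, B < (l : ℕ) → R l 1 ≠ 0 := fun l hl => hB l hl 1 norm_one
  have v2 : ev χ₁ (p₂ : ℕ) = 1 := by rw [e2 χ₁ s1.le, pair_one]
  have v3 : ev χ₁ (p₃ : ℕ) = 1 := by
    rw [e3 χ₁ (s1.le.trans (by intro l hl; exact Or.inl hl)), pair_one]
  have hχ2 : χ₂ ^ (q : ℕ) = 1 := by rw [← o2]; exact pow_orderOf_eq_one _
  have hχ3 : χ₃ ^ (q : ℕ) = 1 := by rw [← o3]; exact pow_orderOf_eq_one _
  have n2 : p₁ ∉ sup χ₂ := by rw [s2]; exact h12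
  have n3 : p₁ ∉ sup χ₃ := by rw [s3]; exact h13
  by_cases k2 : ev χ₂ (p₁ : ℕ) = 1
  · refine core hS hE h1 h2 hqp t1 t2 o1 o2 ?_ ?_ ?_ ?_ ?_ ?_
    · rw [s1, s2]; exact Set.disjoint_singleton.2 h12
    · exact ⟨p₁, by rw [s1]; rfl, a1⟩
    · exact ⟨p₂, by rw [s2]; rfl, a2⟩
    · intro l hl
      rw [s2] at hl
      rw [hl, v2]
    · intro l hl
      rw [s1] at hl
      rw [hl, k2]
    · rintro l (hl | hl)
      · rw [s1] at hl
        rw [hl]; exact hR1 _ b1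
      · rw [s2] at hl
        rw [hl]; exact hR1 _ b2
  · -- combine two characters
    have w2 : ev χ₂ (p₁ : ℕ) ^ (q : ℕ) = 1 := (hevn χ₂ p₁ q t2.fin n2 hχ2).1
    have w3 : ev χ₃ (p₁ : ℕ) ^ (q : ℕ) = 1 := (hevn χ₃ p₁ q t3.fin n3 hχ3).1
    have : Fact (q : ℕ).Prime := ⟨hqp⟩
    have : NeZero (q : ℕ) := ⟨hqp.ne_zero⟩
    have hprim : IsPrimitiveRoot (ev χ₂ (p₁ : ℕ)) (q : ℕ) := by
      have h3 : orderOf (ev χ₂ (p₁ : ℕ)) = (q : ℕ) := orderOf_eq_prime w2 k2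
      rw [← h3]
      exact IsPrimitiveRoot.orderOf _
    have x3 : ev χ₃ (p₁ : ℕ) ≠ 0 := fun h => by
      rw [h, zero_pow hqp.ne_zero] at w3
      exact zero_ne_one w3
    obtain ⟨c, hc, hc'⟩ := hprim.eq_pow_of_pow_eq_one (ξ := (ev χ₃ (p₁ : ℕ))⁻¹) (by
      rw [inv_pow, w3, inv_one])
    -- the character `χ₃ * χ₂ ^ c`
    set χ' := χ₃ * χ₂ ^ c with hχ'
    have hdj : Disjoint (sup χ₃) (sup (χ₂ ^ c)) :=
      Disjoint.mono_right (hspow χ₂ c) (by rw [s3, s2]; exact Set.disjoint_singleton.2 h23.symm)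
    have hsχ' : sup χ' = sup χ₃ ∪ sup (χ₂ ^ c) := hsd _ _ hdj
    have hsub : sup χ' ⊆ {p₂, p₃} := by
      rw [hsχ', s3]
      refine Set.union_subset ?_ ((hspow χ₂ c).trans (by rw [s2]; intro l hl; exact Or.inl hl))
      intro l hl
      exact Or.inr hl
    have hp3 : p₃ ∈ sup χ' := by
      rw [hsχ', s3]
      exact Or.inl rfl
    have htχ' : Tame n χ' := htmul n _ _ t3 (htpow n c χ₂ t2)
    have hoχ' : orderOf χ' = (q : ℕ) := by
      refine orderOf_eq_prime ?_ fun h => ?_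
      · rw [hχ', mul_pow, hχ3, one_mul, ← pow_mul, mul_comm, pow_mul, hχ2, one_pow]
      · rw [h, sup_one] at hp3
        exact hp3
    have hev' : ev χ' (p₁ : ℕ) = 1 := by
      have h3 : ev χ' (p₁ : ℕ) = ev χ₃ (p₁ : ℕ) * ev (χ₂ ^ c) (p₁ : ℕ) := by
        have hE1 := hE.1
        have hd1 : ∀ l ∈ ({p₂, p₃} : Finset Nat.Primes), ¬ (l : ℕ) ∣ (p₁ : ℕ) := by
          intro l hl h
          have h5 : (l : ℕ) = (p₁ : ℕ) := (Nat.prime_dvd_prime_iff_eq l.2 p₁.2).1 h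
          have h6 : l = p₁ := Subtype.ext h5
          rw [Finset.mem_insert, Finset.mem_singleton] at hl
          rcases hl with h7 | h7
          · exact h12 (by rw [← h6, h7])
          · exact h13 (by rw [← h6, h7])
        rw [hE1 χ' {p₂, p₃} _ (by
            intro l hl
            have := hsub hl
            simpa using this) hd1,
          hE1 χ₃ {p₂, p₃} _ (by
            rw [s3]
            intro l hl
            rw [Set.mem_singleton_iff] at hl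
            simp [hl]) hd1,
          hE1 (χ₂ ^ c) {p₂, p₃} _ (by
            refine (hspow χ₂ c).trans ?_
            rw [s2]
            intro l hl
            rw [Set.mem_singleton_iff] at hl
            simp [hl]) hd1, ← Finset.prod_mul_distrib]
        refine Finset.prod_congr rfl fun l _ => ?_
        rw [hχ', Pi.mul_apply, MulChar.mul_apply]
      rw [h3, hevp χ₂ p₁ c t2.fin n2, hc', mul_inv_cancel₀ x3]
    refine core hS hE h1 h2 hqp t1 htχ' o1 hoχ' ?_ ?_ ?_ ?_ ?_ ?_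
    · rw [s1]
      refine Set.disjoint_singleton_left.2 fun h => ?_
      rcases hsub h with h | h
      · exact h12 h
      · exact h13 h
    · exact ⟨p₁, by rw [s1]; rfl, a1⟩
    · exact ⟨p₃, hp3, a3⟩
    · intro l hl
      rcases hsub hl with h | h
      · rw [h, v2]
      · rw [Set.mem_singleton_iff.1 h, v3]
    · intro l hl
      rw [s1] at hl
      rw [hl, hev']
    · rintro l (hl | hl)
      · rw [s1] at hl
        rw [hl]; exact hR1 _ b1
      · rcases hsub hl with h | h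
        · rw [h]; exact hR1 _ b2
        · rw [Set.mem_singleton_iff.1 h]; exact hR1 _ b3

open BS in
/-- BS2G -/
theorem t_BS2G (hS : SUPStmt) (hD : DIRGStmt) (hA : AUXStmt) {Sg T : Set ℕ}
    {n d : ℕ} {W : Ch → ℂ} {R : Nat.Primes → ℂ → ℂ} (hT : RichG Sg T)
    (hn : 1 < n) (hR : Lim d R) (h1 : Eq1T T n W R) (h2 : Eq2T T n W R) (hW1 : W 1 = 0)
    (φ : Ch) (hφ : Tame n φ) (hoff : Off Sg (sup φ)) (ho : orderOf φ = 2) : W φ = 0 := by
  obtain ⟨-, hsd, hspow, hscop, -, htmul, htpow, hord, hind⟩ := hS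
  obtain ⟨B, hB⟩ := R_ne hR
  have h2n : 2 ∣ n := by
    have := (hord n φ (by omega) hφ).2
    rwa [ho] at this
  set q : Nat.Primes := ⟨2, Nat.prime_two⟩ with hq
  have hq2 : (q : ℕ) = 2 := rfl
  obtain ⟨p, hpT, hpB, hp8, hpφ, hpe⟩ := hD Sg T hT (sup φ) hφ.fin hoff 1 q rfl B
  obtain ⟨χ, tχ, sχ, oχ⟩ := hA n 2 Nat.prime_two h2n p hp8
  have hφ2 : φ ^ 2 = 1 := by rw [← ho]; exact pow_orderOf_eq_one _
  have hχ2 : χ ^ 2 = 1 := by rw [← oχ]; exact pow_orderOf_eq_one _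
  have hd : Disjoint (sup φ) (sup χ) := by
    rw [sχ, Set.disjoint_singleton_right]
    exact hpφ
  have hz1 : ∀ C : Set Nat.Primes, wl W R C 1 = 0 := fun C => by rw [wl, hW1, zero_mul]
  have hit : Hit T (sup χ) := ⟨p, by rw [sχ]; rfl, hpT⟩
  have e1 := h1 χ tχ hit
  rw [oχ, Finset.sum_range_succ, Finset.sum_range_one, pow_zero, pow_one, hz1, zero_add,
    wl_self W R rfl] at e1
  have hs : sup (φ * χ) = sup φ ∪ sup χ := hsd _ _ hd
  have hit2 : Hit T (sup φ ∪ sup χ) := by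
    obtain ⟨l, hl, hlT⟩ := hit
    exact ⟨l, Or.inr hl, hlT⟩
  have : Fact (Nat.Prime 2) := ⟨Nat.prime_two⟩
  have ho2 : orderOf (φ * χ) = 2 := by
    refine orderOf_eq_prime (by rw [mul_pow, hφ2, hχ2, one_mul]) fun h => ?_
    have h3 : p ∈ sup (φ * χ) := by
      rw [hs, sχ]
      exact Or.inr rfl
    rw [h, sup_one] at h3
    exact h3
  have e2 := h1 (φ * χ) (htmul n _ _ hφ tχ) (by rw [hs]; exact hit2)
  rw [ho2, Finset.sum_range_succ, Finset.sum_range_one, pow_zero, pow_one, hz1, zero_add,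
    wl_self W R rfl] at e2
  have e3 := h2 φ χ hφ tχ ⟨2, Nat.prime_two, hχ2⟩ hd hit2
  rw [ho, oχ, Finset.sum_range_succ, Finset.sum_range_one, Finset.sum_range_succ,
    Finset.sum_range_one, Finset.sum_range_succ, Finset.sum_range_one, pow_zero, pow_one, pow_zero,
    pow_one, mul_one, mul_one, one_mul, hz1, zero_add] at e3
  have z1 : wl W R (sup φ ∪ sup χ) χ = 0 := by rw [wl, e1, zero_mul]
  have z2 : wl W R (sup φ ∪ sup χ) (φ * χ) = 0 := by rw [wl, e2, zero_mul]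
  rw [z1, z2, add_zero, zero_add, wl] at e3
  have h6 : (sup φ ∪ sup χ) \ sup φ = {p} := by
    rw [Set.union_sdiff_left, sχ, sdiff_eq_left, Set.disjoint_singleton_left]
    exact hpφ
  rw [h6, finprod_mem_singleton] at e3
  rcases mul_eq_zero.1 e3 with h | h
  · exact h
  · exfalso
    refine hB p hpB _ ?_ h
    rw [hpe φ le_rfl, pair_one, norm_one]

end Pool.DPC
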