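import Pool.Agent.H29.DPW.Defs
import Pool.Agent.H26.DPC.DIR

/-!
# DPW: auxiliary primes with excluded primes
-/

set_option autoImplicit false

namespace Pool.DPC.DIR

open Polynomial Complex

theorem _root_.Pool.DPC.t_DIRG : DIRGStmt := by
  classical
  intro Sg T hRich C hC hOff u q hu B
  set S : Finset Nat.Primes := hC.toFinset.filter fun l => l ≠ q ∧ (l : ℕ) ≠ 2 with hS
  have hq : (q : ℕ).Prime := q.2
  have hM : 4 * (q : ℕ) ≠ 0 := by
    have := hq.pos
    omega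
  have hcop : ∀ l ∈ S, (l : ℕ).Coprime (4 * (q : ℕ)) := by
    intro l hl
    obtain ⟨-, h1, h2⟩ := Finset.mem_filter.1 hl
    refine Nat.Coprime.mul_right ?_ ((Nat.coprime_primes l.2 hq).2 fun h => h1 (Subtype.ext h))
    have : (4 : ℕ) = 2 * 2 := rfl
    rw [this]
    have h3 := (Nat.coprime_primes l.2 Nat.prime_two).2 h2
    exact Nat.Coprime.mul_right h3 h3
  have hne : ∀ l : Nat.Primes, NeZero (l : ℕ) := fun l => ⟨l.2.ne_zero⟩
  obtain ⟨k, hk1, hk2, hk3⟩ := residues S (4 * (q : ℕ)) hcop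
    (fun l => ((u l : ZMod (l : ℕ))).val) (fun l _ => by
      have := hne l
      exact ZMod.val_coe_unit_coprime (u l))
  obtain ⟨D, hD⟩ : ∃ D : ℕ, ∀ l ∈ C, (l : ℕ) ≤ D :=
    ⟨∑ l ∈ hC.toFinset, (l : ℕ), fun l hl =>
      Finset.single_le_sum (f := fun l : Nat.Primes => (l : ℕ)) (fun _ _ => Nat.zero_le _)
        (hC.mem_toFinset.2 hl)⟩
  have hmod : (4 * (q : ℕ)) * ∏ l ∈ S, (l : ℕ) ≠ 0 :=
    mul_ne_zero hM (Finset.prod_ne_zero_iff.2 fun l _ => l.2.ne_zero)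
  have hone : ∀ l ∈ Sg, l.Prime → ∀ j : ℕ, l ^ j ∣ (4 * (q : ℕ)) * ∏ l ∈ S, (l : ℕ) →
      k ≡ 1 [MOD l ^ j] := by
    intro l hl hlp j hj
    have hco : (l ^ j).Coprime (∏ l ∈ S, (l : ℕ)) := by
      refine Nat.Coprime.prod_right fun l' hl' => Nat.Coprime.pow_left j ?_
      refine (Nat.coprime_primes hlp l'.2).2 fun he => ?_
      exact hOff l' (hC.mem_toFinset.1 (Finset.mem_filter.1 hl').1) (he ▸ hl)
    exact hk1.of_dvd (hco.dvd_of_dvd_mul_right hj)
  obtain ⟨p, hpT, hpB, hp, hpk⟩ := hRich _ k (Nat.pos_of_ne_zero hmod) hk3 hone (max B D)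
  have hp1 : p ≡ 1 [MOD 4 * (q : ℕ)] := (hpk.of_dvd (dvd_mul_right _ _)).trans hk1
  have hpl : ∀ l ∈ C, ((p : ℕ) : ZMod (l : ℕ)) = (u l : ZMod (l : ℕ)) := by
    intro l hl
    by_cases h1 : l = q
    · subst h1
      rw [hu, Units.val_one]
      have : p ≡ 1 [MOD (l : ℕ)] := hp1.of_dvd (dvd_mul_left _ _)
      have := (ZMod.natCast_eq_natCast_iff _ _ _).2 this
      rw [this, Nat.cast_one]
    · by_cases h2 : (l : ℕ) = 2
      · obtain ⟨l, hl'⟩ := l
        simp only at h2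
        subst h2
        rw [unit_two (u ⟨2, hl'⟩) 1, Units.val_one]
        have : p ≡ 1 [MOD 2] := hp1.of_dvd ⟨2 * (q : ℕ), by ring⟩
        have := (ZMod.natCast_eq_natCast_iff _ _ _).2 this
        rw [this, Nat.cast_one]
      · have hl' : l ∈ S := Finset.mem_filter.2 ⟨hC.mem_toFinset.2 hl, h1, h2⟩
        have h3 : p ≡ ((u l : ZMod (l : ℕ))).val [MOD (l : ℕ)] :=
          (hpk.of_dvd ((Finset.dvd_prod_of_mem _ hl').mul_left _)).trans (hk2 l hl')
        have h4 := (ZMod.natCast_eq_natCast_iff _ _ _).2 h3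
        have := hne l
        rw [h4, ZMod.natCast_val, ZMod.cast_id', id]
  refine ⟨⟨p, hp⟩, hpT, (le_max_left _ _).trans_lt hpB, ?_, ?_, ?_⟩
  · have : p % (4 * (q : ℕ)) = 1 % (4 * (q : ℕ)) := hp1
    rw [Nat.mod_eq_of_lt (a := 1) (by have := hq.pos; omega)] at this
    exact this
  · intro h
    exact absurd (hD _ h) (not_le.2 ((le_max_right _ _).trans_lt hpB))
  · intro φ hφ
    have h1 : pair φ u = ∏ᶠ l ∈ sup φ, φ l (u l : ZMod (l : ℕ)) := by
      unfold pair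
      rw [finprod_mem_def]
      refine finprod_congr fun l => ?_
      by_cases hl : l ∈ sup φ
      · rw [Set.mulIndicator_of_mem hl]
      · rw [Set.mulIndicator_of_notMem hl]
        have : φ l = 1 := not_not.1 hl
        rw [this, MulChar.one_apply_coe]
    rw [h1]
    unfold ev
    refine finprod_mem_congr rfl fun l hl => ?_
    rw [← hpl l (hφ hl)]

end Pool.DPC.DIR
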