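import Pool.Agent.H29.DPW.Lmz
import Pool.Agent.H29.DPV.Sta

/-!
# DPW: characters with two primes of ramification index `q`
-/

set_option autoImplicit false

namespace Pool.DPC

open Polynomial Complex

theorem t_STAG (hMID : MIDTStmt) (hORT : ORTTStmt)
    (hEVP : EVPStmt) (hSUP : SUPStmt) {Sg S : Set ℕ} {n d : ℕ} {W : Ch → ℂ}
    {R : Nat.Primes → ℂ → ℂ} {c : Nat.Primes → ℂ} (hS : Prov Sg S n c) (hn : 0 < n) (hR : Lim d R)
    (hX : Exp2 d R c) (hE1 : Eq1T S n W R) (hE2 : Eq2T S n W R) (φ : Ch) (q : Nat.Primes)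
    (hφ : Tame n φ) (hoff : Off Sg (sup φ)) (hq2 : (q : ℕ) ≠ 2) (hqm : (q : ℕ) ∣ orderOf φ) (hφq : φ q ^ 2 = 1)
    (hIH : IH n W (orderOf φ)) (hTwo : Two (q : ℕ) φ) : W φ = 0 := by
  obtain ⟨φ', hφ', hsup, hord, hpow, v, ξ, hv, hφv, hφ'v, hξ⟩ :=
    two_fam hEVP hSUP hn hφ hq2 hqm hφq hTwo
  have hm0 : 0 < orderOf φ := (hSUP.2.2.2.2.2.2.2.1 n φ hn hφ).1
  have hmn : orderOf φ ∣ n := (hSUP.2.2.2.2.2.2.2.1 n φ hn hφ).2
  have hqp : (q : ℕ).Prime := q.2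
  have hm1 : 1 < orderOf φ := lt_of_lt_of_le hqp.one_lt (Nat.le_of_dvd hm0 hqm)
  have hcmp : ∀ u : Un, u q = 1 → ∑ i ∈ un (orderOf φ), W (φ ^ i) * pair φ u ^ i =
      ∑ i ∈ un (orderOf φ), W (φ' ^ i) * pair φ' u ^ i := by
    intro u hu
    refine t_lmzG (m := orderOf φ) hR hX (w := fun i => W (φ ^ i)) (w' := fun i => W (φ' ^ i))
      (hEVP.2.2.2.2 φ u n hφ.fin hn hφ.exp).2 (hEVP.2.2.2.2 φ' u n hφ'.fin hn hφ'.exp).2
      fun T B => ?_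
    obtain ⟨p, χ, hpB, hpT, -, hp0, hp2⟩ := hS (sup φ) hφ.fin hoff q (hqm.trans hmn) u hu T B
    refine ⟨p, hpB, hpT, fun B' => ?_⟩
    obtain ⟨p', χ', hpB', hp'⟩ := hp2 B'
    refine ⟨p', hpB', ?_⟩
    have e1 := t_MIDV hMID hEVP hSUP hn hE1 hE2 hφ hqm hIH (le_refl _) hp0 hp'
    have e2 := t_MIDV hMID hEVP hSUP hn hE1 hE2 hφ' (by rw [hord]; exact hqm)
      (by rw [hord]; exact hIH) (C := sup φ) (by rw [hsup]) hp0 hp'
    rw [hord, hsup] at e2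
    have h3 : ∑ i ∈ (Finset.range (orderOf φ)).filter (fun i => (q : ℕ) ∣ i),
        ∑ b ∈ Finset.Ico 1 (q : ℕ), wl W R (sup φ ∪ sup (χ * χ')) (φ' ^ i * (χ * χ') ^ b) =
        ∑ i ∈ (Finset.range (orderOf φ)).filter (fun i => (q : ℕ) ∣ i),
        ∑ b ∈ Finset.Ico 1 (q : ℕ), wl W R (sup φ ∪ sup (χ * χ')) (φ ^ i * (χ * χ') ^ b) := by
      refine Finset.sum_congr rfl fun i hi => Finset.sum_congr rfl fun b _ => ?_
      rw [Finset.mem_filter] at hi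
      rw [hpow i hi.2]
    rw [h3] at e2
    exact add_right_cancel (e1.trans e2.symm)
  have hkey : ∀ u : Un, u q = 1 →
      ∑ i ∈ un (orderOf φ), (W (φ ^ i) * ((ξ⁻¹) ^ i - 1)) * pair φ u ^ i = 0 := by
    intro u hu
    have e1 := hcmp u hu
    have e2 := hcmp (u * v) (by rw [Pi.mul_apply, hu, hv, mul_one])
    rw [(hEVP.2.2.2.1 φ φ u v hφ.fin hφ.fin).2.1, (hEVP.2.2.2.1 φ' φ' u v hφ'.fin hφ'.fin).2.1,
      hφ'v, mul_one, ← e1, hφv] at e2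
    rw [← sub_eq_zero, ← Finset.sum_sub_distrib] at e2
    rw [← e2]
    refine Finset.sum_congr rfl fun i _ => ?_
    rw [mul_pow]
    ring
  have h1m : 1 ∈ un (orderOf φ) := by
    simp [un, hm1]
  have hfin := ort_one hORT hEVP (w := fun i => W (φ ^ i) * ((ξ⁻¹) ^ i - 1)) hφ.fin hm0 hφq hkey
    1 h1m
  simp only [pow_one] at hfin
  rcases mul_eq_zero.1 hfin with h3 | h3
  · exact h3
  · exfalso
    have h4 : ξ = 1 := by
      rw [sub_eq_zero] at h3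
      exact inv_eq_one.1 h3
    rw [h4, orderOf_one] at hξ
    exact hqp.one_lt.ne' hξ.symm

end Pool.DPC
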