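import Pool.Agent.H29.DPW.Lmz
import Pool.Agent.H29.DPV.Stb

/-!
# DPW: the step for the characters without two components of order `q`
-/

set_option autoImplicit false

namespace Pool.DPC

open Polynomial Complex

theorem t_STBG (hMID : MIDTStmt) (hORT : ORTTStmt)
    (hEVP : EVPStmt) (hSUP : SUPStmt) {Sg S : Set ℕ} {n d : ℕ} {W : Ch → ℂ}
    {R : Nat.Primes → ℂ → ℂ} {c : Nat.Primes → ℂ} (hS : Prov Sg S n c) (hn : 0 < n) (hR : Lim d R)
    (hX : Exp2 d R c) (hE1 : Eq1T S n W R) (hE2 : Eq2T S n W R) (φ : Ch) (q : Nat.Primes)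
    (hφ : Tame n φ) (hoff : Off Sg (sup φ)) (hqm : (q : ℕ) ∣ orderOf φ) (hφq : φ q ^ 2 = 1)
    (hIH : IH n W (orderOf φ))
    (hTwo : ∀ ψ : Ch, Tame n ψ → orderOf ψ = orderOf φ → ψ q ^ 2 = 1 → Two (q : ℕ) ψ → W ψ = 0) :
    W φ = 0 := by
  have hm0 : 0 < orderOf φ := (hSUP.2.2.2.2.2.2.2.1 n φ hn hφ).1
  have hmn : orderOf φ ∣ n := (hSUP.2.2.2.2.2.2.2.1 n φ hn hφ).2
  have hqp : (q : ℕ).Prime := q.2
  have hm1 : 1 < orderOf φ := lt_of_lt_of_le hqp.one_lt (Nat.le_of_dvd hm0 hqm)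
  have hqp1 : ∀ p : Nat.Primes, (p : ℕ) % (4 * (q : ℕ)) = 1 → q ≠ p := by
    intro p hp h
    subst h
    rw [Nat.mod_eq_of_lt (by linarith [hqp.pos])] at hp
    exact hqp.one_lt.ne' hp
  have hmain : ∀ i ∈ un (orderOf φ), W (φ ^ i) = 0 := by
    refine ort_one hORT hEVP (w := fun i => W (φ ^ i)) hφ.fin hm0 hφq fun u hu => ?_
    have hx : ‖pair φ u‖ = 1 := (hEVP.2.2.2.2 φ u n hφ.fin hn hφ.exp).2
    have h1 := t_lmzG (m := orderOf φ) hR hX (w := fun i => W (φ ^ i)) (w' := fun _ => 0) hx hx ?_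
    · rw [h1]
      simp
    intro T B
    obtain ⟨p, χ, hpB, hpT, -, hp0, hp2⟩ := hS (sup φ) hφ.fin hoff q (hqm.trans hmn) u hu T B
    refine ⟨p, hpB, hpT, fun B' => ?_⟩
    obtain ⟨p', χ', hpB', hp'⟩ := hp2 B'
    refine ⟨p', hpB', ?_⟩
    have h2 := t_MIDV hMID hEVP hSUP hn hE1 hE2 hφ hqm hIH (le_refl _) hp0 hp'
    obtain ⟨hne, -, -, -, -, -⟩ := ax_two hSUP hp0 hp'
    rw [Finset.sum_eq_zero (s := (Finset.range (orderOf φ)).filter (fun i => (q : ℕ) ∣ i)),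
      add_zero] at h2
    swap
    · intro i hi
      refine Finset.sum_eq_zero fun b hb => ?_
      exact STB.term_zero hSUP hn hφ hp0.tame hp'.tame hqm hφq hIH hTwo hp0.sup hp'.sup hp0.ord
        hp'.ord hne hp0.out (fun h => hp'.out (Or.inl h)) (hqp1 _ hp0.mod)
        (hqp1 _ hp'.mod) (Finset.mem_filter.1 hi).2 (Finset.mem_Ico.1 hb).1
        (Finset.mem_Ico.1 hb).2 _
    simp only [zero_mul, Finset.sum_const_zero]
    exact h2
  have h1 : (1 : ℕ) ∈ un (orderOf φ) := by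
    simp [un, hm1]
  have h2 := hmain 1 h1
  rwa [pow_one] at h2

end Pool.DPC
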