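import Pool.Agent.H29.DPW.Lmz

/-!
# DPW: the step when `q ^ 2` divides the order
-/

set_option autoImplicit false

namespace Pool.DPC

open Polynomial Complex

theorem t_STCG (hMID : MIDTStmt) (hORT : ORTTStmt)
    (hEVP : EVPStmt) (hSUP : SUPStmt) {Sg S : Set ℕ} {n d : ℕ} {W : Ch → ℂ}
    {R : Nat.Primes → ℂ → ℂ} {c : Nat.Primes → ℂ} (hS : Prov Sg S n c) (hn : 0 < n) (hR : Lim d R)
    (hX : Exp2 d R c) (hE1 : Eq1T S n W R) (hE2 : Eq2T S n W R) (φ : Ch) (q : Nat.Primes)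
    (hφ : Tame n φ) (hoff : Off Sg (sup φ)) (hq2 : (q : ℕ) ^ 2 ∣ orderOf φ) (hφq : φ q ^ 2 = 1)
    (hIH : IH n W (orderOf φ)) : W φ = 0 := by
  have hSUP' := hSUP
  obtain ⟨s1, s2, s3, s4, s5, s6, s7, s8, s9⟩ := hSUP'
  obtain ⟨m, hm⟩ : ∃ m, m = orderOf φ := ⟨_, rfl⟩
  obtain ⟨hm0, hmn⟩ := s8 n φ hn hφ
  rw [← hm] at hm0 hmn hq2
  have hqp : (q : ℕ).Prime := q.2
  have hqm : (q : ℕ) ∣ m := (dvd_pow_self (q : ℕ) two_ne_zero).trans hq2
  have hm1 : 1 < m := lt_of_lt_of_le hqp.one_lt (Nat.le_of_dvd hm0 hqm)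
  have hmain : ∀ i ∈ un (orderOf φ), W (φ ^ i) = 0 := by
    refine ort_one hORT hEVP (w := fun i => W (φ ^ i)) hφ.fin (hm ▸ hm0) hφq fun u hu => ?_
    have hx : ‖pair φ u‖ = 1 := (hEVP.2.2.2.2 φ u n hφ.fin hn hφ.exp).2
    have h1 := t_lmzG (m := orderOf φ) hR hX (w := fun i => W (φ ^ i)) (w' := fun _ => 0) hx hx ?_
    · rw [h1]
      simp
    intro T B
    obtain ⟨p, χ, hpB, hpT, -, hp0, hp2⟩ := hS (sup φ) hφ.fin hoff q (hqm.trans hmn) u hu T B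
    refine ⟨p, hpB, hpT, fun B' => ?_⟩
    obtain ⟨p', χ', hpB', hp'⟩ := hp2 B'
    refine ⟨p', hpB', ?_⟩
    have h2 := t_MIDV hMID hEVP hSUP hn hE1 hE2 hφ (hm ▸ hqm) hIH (le_refl _) hp0 hp'
    obtain ⟨-, ht, -, ho, -, -⟩ := ax_two hSUP hp0 hp'
    have h3 : ∑ i ∈ (Finset.range (orderOf φ)).filter (fun i => (q : ℕ) ∣ i),
        ∑ b ∈ Finset.Ico 1 (q : ℕ), wl W R (sup φ ∪ sup (χ * χ')) (φ ^ i * (χ * χ') ^ b) = 0 := by
      rw [← hm]
      refine Finset.sum_eq_zero fun i hi => Finset.sum_eq_zero fun b _ => ?_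
      obtain ⟨_, hqi⟩ := Finset.mem_filter.mp hi
      have h4 : (φ ^ i * (χ * χ') ^ b) ^ (m / (q : ℕ)) = 1 := by
        rw [mul_pow, ← pow_mul, ← pow_mul]
        have h5 : φ ^ (i * (m / (q : ℕ))) = 1 := by
          obtain ⟨c, rfl⟩ := hqi
          rw [mul_assoc, mul_left_comm, Nat.mul_div_cancel' hqm, mul_comm, pow_mul, hm,
            pow_orderOf_eq_one, one_pow]
        have h6 : (χ * χ') ^ (b * (m / (q : ℕ))) = 1 := by
          obtain ⟨c, hc⟩ := hq2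
          have h7 : m / (q : ℕ) = q * c := by
            rw [hc, sq, mul_assoc, Nat.mul_div_cancel_left _ hqp.pos]
          rw [h7, mul_left_comm, pow_mul]
          rw [← ho, pow_orderOf_eq_one, one_pow]
        rw [h5, h6, mul_one]
      have h5 : 0 < m / (q : ℕ) := Nat.div_pos (Nat.le_of_dvd hm0 hqm) hqp.pos
      have h6 : orderOf (φ ^ i * (χ * χ') ^ b) < m :=
        lt_of_le_of_lt (orderOf_le_of_pow_eq_one h5 h4) (Nat.div_lt_self hm0 hqp.one_lt)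
      have h7 : W (φ ^ i * (χ * χ') ^ b) = 0 :=
        hIH _ (s6 n _ _ (s7 n i φ hφ) (s7 n b _ ht)) (hm ▸ h6)
      unfold wl
      rw [h7, zero_mul]
    rw [h3, add_zero] at h2
    simp only [zero_mul, Finset.sum_const_zero]
    exact h2
  have h1 : (1 : ℕ) ∈ un (orderOf φ) := by
    rw [← hm]
    unfold un
    rw [Finset.mem_filter, Finset.mem_range]
    exact ⟨hm1, Nat.coprime_one_left m⟩
  have h2 := hmain 1 h1
  rwa [pow_one] at h2

end Pool.DPC
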