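import Pool.Agent.H29.DPW.Bs
import Pool.Agent.H29.DPW.Dir
import Pool.Agent.H29.DPW.Sta
import Pool.Agent.H29.DPW.Stb
import Pool.Agent.H29.DPW.Stc
import Pool.Agent.H52.DPC.SEM

/-!
# DPW: the linear system has only the zero solution
-/

set_option autoImplicit false

namespace Pool.DPC

open Polynomial Complex

/-- the system with the value zero at the characters ramified at `Sg` -/
theorem t_CORG (hI : IDXTStmt) (hQ : QSMStmt) (hMID : MIDTStmt) (hDIR : DIRGStmt)
    (hAUX : AUXStmt) (hORT : ORTTStmt) (hEVP : EVPStmt) (hSUP : SUPStmt) {Sg S : Set ℕ}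
    {n d : ℕ} {W : Ch → ℂ} {R : Nat.Primes → ℂ → ℂ} {c : Nat.Primes → ℂ} (hSg : Sg.Finite)
    (hC : RichCG Sg S c) (hn1 : 1 < n) (hR : Lim d R) (hX : Exp2 d R c)
    (hW0 : ∀ ψ : Ch, ¬ Off Sg (sup ψ) → W ψ = 0) (hY : EqYT S n W R) :
    ∀ φ : Ch, Tame n φ → W φ = 0 := by
  have hSUP' := hSUP
  obtain ⟨-, -, -, -, ht1, -, -, htord, -⟩ := hSUP'
  have hn : 0 < n := by omega
  obtain ⟨h1, h2⟩ := hI S n W R hn hY
  have hP : Prov Sg S n c := t_prov hDIR hAUX hSg hC n
  have hW1 : W 1 = 0 := t_BS1G hSUP hEVP hDIR hAUX hSg hC.rich hn1 hR h1 h2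
  have key : ∀ m : ℕ, ∀ φ : Ch, Tame n φ → orderOf φ = m → W φ = 0 := by
    intro m
    induction m using Nat.strong_induction_on with
    | _ m ih =>
      intro φ hφ hm
      by_cases hoff : Off Sg (sup φ)
      swap
      · exact hW0 φ hoff
      have hIH : IH n W (orderOf φ) := fun ψ hψ hlt => ih (orderOf ψ) (hm ▸ hlt) ψ hψ rfl
      have hm0 : 0 < orderOf φ := (htord n φ hn hφ).1
      rcases lt_or_ge 2 (orderOf φ) with h | h
      · obtain ⟨q, hq, hq1, hq2⟩ := hQ φ hφ.fin h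
        by_cases hqq : (q : ℕ) ^ 2 ∣ orderOf φ
        · exact t_STCG hMID hORT hEVP hSUP hP hn hR hX h1 h2 φ q hφ hoff hqq hq1 hIH
        · have hqn2 : (q : ℕ) ≠ 2 := hq2.resolve_left hqq
          refine t_STBG hMID hORT hEVP hSUP hP hn hR hX h1 h2 φ q hφ hoff hq hq1 hIH
            fun ψ hψ hord hψ1 hTw => ?_
          by_cases hoff' : Off Sg (sup ψ)
          · exact t_STAG hMID hORT hEVP hSUP hP hn hR hX h1 h2 ψ q hψ hoff' hqn2
              (by rw [hord]; exact hq) hψ1 (by rw [hord]; exact hIH) hTw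
          · exact hW0 ψ hoff'
      · have hcase : orderOf φ = 1 ∨ orderOf φ = 2 := by omega
        rcases hcase with h3 | h3
        · have h5 : φ = 1 := orderOf_eq_one_iff.1 h3
          rw [h5]
          exact hW1
        · exact t_BS2G hSUP hDIR hAUX hC.rich hn1 hR h1 h2 hW1 φ hφ hoff h3
  intro φ hφ
  exact key _ φ hφ rfl

/-- the system for the test groups unramified at `Sg` -/
theorem t_CORS (hI : IDXTStmt) (hQ : QSMStmt) (hMID : MIDTStmt) (hDIR : DIRGStmt)
    (hAUX : AUXStmt) (hORT : ORTTStmt) (hEVP : EVPStmt) (hSUP : SUPStmt) {Sg S : Set ℕ}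
    {n d : ℕ} {W : Ch → ℂ} {R : Nat.Primes → ℂ → ℂ} {c : Nat.Primes → ℂ} (hSg : Sg.Finite)
    (hC : RichCG Sg S c) (hn1 : 1 < n) (hR : Lim d R) (hX : Exp1 d R c)
    (hY : ∀ φ χ : Ch, Tame n φ → Tame n χ → (∃ q : ℕ, q.Prime ∧ χ ^ q = 1) →
      Hit S (sup φ ∪ sup χ) → Off Sg (sup φ ∪ sup χ) →
      ∑ᶠ ψ ∈ (Subgroup.closure {φ, χ} : Set Ch), wl W R (sup φ ∪ sup χ) ψ = 0) :
    ∀ φ : Ch, Tame n φ → Off Sg (sup φ) → W φ = 0 := by
  classical
  have hn : 0 < n := by omega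
  obtain ⟨B₀, hB₀⟩ := fin_bd hSg
  set W' : Ch → ℂ := fun ψ => if Off Sg (sup ψ) then W ψ else 0 with hW'
  set R' : Nat.Primes → ℂ → ℂ := fun l => if (l : ℕ) ∈ Sg then fun _ => 0 else R l with hR'
  have hRR : ∀ l : Nat.Primes, (l : ℕ) ∉ Sg → R' l = R l := fun l hl => by
    rw [hR']
    exact if_neg hl
  have hR0 : ∀ l : Nat.Primes, (l : ℕ) ∈ Sg → ∀ t, R' l t = 0 := fun l hl t => by
    have : R' l = fun _ => 0 := by
      rw [hR']
      exact if_pos hl
    rw [this]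
  have hL' : Lim d R' := by
    intro ε hε
    obtain ⟨B, hB⟩ := hR ε hε
    refine ⟨max B B₀, fun l hl t ht => ?_⟩
    rw [hRR l (hB₀ l ((le_max_right _ _).trans_lt hl))]
    exact hB l ((le_max_left _ _).trans_lt hl) t ht
  have hX' : Exp2 d R' c := by
    obtain ⟨K, hK⟩ := hX
    refine ⟨K, B₀, fun l hl t ht => ?_⟩
    rw [hRR l (hB₀ l hl)]
    exact hK l t ht
  have hSUP' := hSUP
  obtain ⟨sm, -, sp, -, ht1, tmul, tpow, htord, -⟩ := hSUP'
  have hY' : EqYT S n W' R' := by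
    intro φ χ hφ hχ hq hit
    have hCf : (sup φ ∪ sup χ).Finite := hφ.fin.union hχ.fin
    have hsub : ∀ ψ ∈ (Subgroup.closure {φ, χ} : Set Ch), sup ψ ⊆ sup φ ∪ sup χ := by
      intro ψ hψ
      obtain ⟨i, j, _, _, rfl⟩ := H52.mem_cl hn hφ.exp hχ.exp hψ
      exact (sm _ _).trans (Set.union_subset_union (sp φ i) (sp χ j))
    by_cases hoff : Off Sg (sup φ ∪ sup χ)
    · rw [← hY φ χ hφ hχ hq hit hoff]
      refine finsum_mem_congr rfl fun ψ hψ => ?_
      have h1 : W' ψ = W ψ := by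
        rw [hW']
        exact if_pos fun l hl => hoff l (hsub ψ hψ hl)
      unfold wl
      rw [h1]
      congr 1
      refine finprod_mem_congr rfl fun l hl => ?_
      rw [hRR l (hoff l hl.1)]
    · have h0 : ∀ ψ ∈ (Subgroup.closure {φ, χ} : Set Ch),
          wl W' R' (sup φ ∪ sup χ) ψ = 0 := by
        intro ψ hψ
        unfold Off at hoff
        push Not at hoff
        obtain ⟨l, hl, hlS⟩ := hoff
        by_cases hlψ : l ∈ sup ψ
        · have h1 : W' ψ = 0 := by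
            rw [hW']
            exact if_neg fun h => h l hlψ hlS
          unfold wl
          rw [h1, zero_mul]
        · unfold wl
          have h2 : ∏ᶠ l ∈ (sup φ ∪ sup χ) \ sup ψ, R' l (ev ψ (l : ℕ)) = 0 := by
            rw [finprod_mem_eq_finite_toFinset_prod _ (hCf.subset Set.sdiff_subset)]
            exact Finset.prod_eq_zero (i := l) (by
              rw [Set.Finite.mem_toFinset]
              exact ⟨hl, hlψ⟩) (hR0 l hlS _)
          rw [h2, mul_zero]
      rw [finsum_mem_congr rfl h0]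
      simp
  intro φ hφ hoff
  have h1 := t_CORG hI hQ hMID hDIR hAUX hORT hEVP hSUP hSg hC hn1 hL' hX'
    (fun ψ hψ => by
      rw [hW']
      exact if_neg hψ) hY' φ hφ
  rw [hW'] at h1
  beta_reduce at h1
  rwa [if_pos hoff] at h1

end Pool.DPC
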