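import Mathlib

/-!
# DPW: finitely many equations are enough
-/

set_option autoImplicit false

namespace Pool.DPC

/-- If all solutions of a system of linear equations in finitely many unknowns each vanish at `x`,
then this holds for the solutions of a finite part of the system. -/
theorem fin_sys {X : Type*} (E : Set (X →₀ ℂ)) (x : X)
    (h : ∀ W : X → ℂ, (∀ e ∈ E, (e.sum fun ψ a => a * W ψ) = 0) → W x = 0) :
    ∃ F : Finset (X →₀ ℂ), (F : Set (X →₀ ℂ)) ⊆ E ∧
      ∀ W : X → ℂ, (∀ e ∈ F, (e.sum fun ψ a => a * W ψ) = 0) → W x = 0 := by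
  classical
  have hmem : Finsupp.single x (1 : ℂ) ∈ Submodule.span ℂ E := by
    by_contra hx
    obtain ⟨f, hf, hf'⟩ := Submodule.exists_dual_map_eq_bot_of_notMem hx inferInstance
    have hfe : ∀ e : X →₀ ℂ, (e.sum fun ψ a => a * f (Finsupp.single ψ 1)) = f e := by
      intro e
      have h1 : e = e.sum fun ψ a => a • Finsupp.single ψ (1 : ℂ) := by
        conv_lhs => rw [← Finsupp.sum_single e]
        refine Finsupp.sum_congr fun ψ _ => ?_
        rw [Finsupp.smul_single, smul_eq_mul, mul_one]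
      conv_rhs => rw [h1, map_finsuppSum]
      refine Finsupp.sum_congr fun ψ _ => ?_
      rw [map_smul, smul_eq_mul]
    refine hf (h (fun ψ => f (Finsupp.single ψ 1)) fun e he => ?_)
    rw [hfe]
    have h2 : f e ∈ (Submodule.span ℂ E).map f :=
      ⟨e, Submodule.subset_span he, rfl⟩
    rw [hf'] at h2
    exact h2
  obtain ⟨F, hFE, hF⟩ := Submodule.mem_span_finite_of_mem_span hmem
  refine ⟨F, hFE, fun W hW => ?_⟩
  let g : (X →₀ ℂ) →ₗ[ℂ] ℂ := Finsupp.lsum ℂ fun ψ => LinearMap.toSpanSingleton ℂ ℂ (W ψ)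
  have hg : ∀ e : X →₀ ℂ, g e = e.sum fun ψ a => a * W ψ := by
    intro e
    rw [Finsupp.lsum_apply]
    rfl
  have h3 : ∀ e ∈ Submodule.span ℂ (F : Set (X →₀ ℂ)), g e = 0 := by
    intro e he
    have h4 : Submodule.span ℂ (F : Set (X →₀ ℂ)) ≤ LinearMap.ker g := by
      rw [Submodule.span_le]
      intro e he
      rw [SetLike.mem_coe, LinearMap.mem_ker, hg]
      exact hW e he
    exact h4 he
  have h5 := h3 _ hF
  rw [hg, Finsupp.sum_single_index (by rw [zero_mul]), one_mul] at h5
  exact h5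

end Pool.DPC
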