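import Pool.Agent.H29.DPU.Defs
import Pool.Agent.H29.DPU.Sem
import Pool.Agent.H29.DPW.Cor
import Pool.Agent.H29.DPW.Fin

/-!
# DPW: a finite list of test groups, and semilinear maps
-/

set_option autoImplicit false

namespace Pool.DPC

open Polynomial Complex

open Classical in
/-- the equation of a test group -/
noncomputable def row (R : Nat.Primes → ℂ → ℂ) (α γ : Ch) : Ch →₀ ℂ :=
  if h : (Subgroup.closure {α, γ} : Set Ch).Finite then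
    ∑ ψ ∈ h.toFinset, Finsupp.single ψ (∏ᶠ l ∈ (sup α ∪ sup γ) \ sup ψ, R l (ev ψ (l : ℕ)))
  else 0

theorem row_sum (R : Nat.Primes → ℂ → ℂ) (α γ : Ch)
    (h : (Subgroup.closure {α, γ} : Set Ch).Finite) (W : Ch → ℂ) :
    ((row R α γ).sum fun ψ a => a * W ψ) =
      ∑ᶠ ψ ∈ (Subgroup.closure {α, γ} : Set Ch), wl W R (sup α ∪ sup γ) ψ := by
  classical
  rw [row, dif_pos h, finsum_mem_eq_finite_toFinset_sum _ h]
  rw [← Finsupp.sum_finsetSum_index (fun ψ => zero_mul _) (fun ψ a b => add_mul _ _ _)]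
  refine Finset.sum_congr rfl fun ψ _ => ?_
  rw [Finsupp.sum_single_index (zero_mul _), wl, mul_comm]

/-- the value at `φ` is zero for all solutions of a finite part of the system -/
theorem t_FINC (hI : IDXTStmt) (hQ : QSMStmt) (hMID : MIDTStmt) (hDIR : DIRGStmt)
    (hAUX : AUXStmt) (hORT : ORTTStmt) (hEVP : EVPStmt) (hSUP : SUPStmt) {Sg S : Set ℕ}
    {n d : ℕ} {R : Nat.Primes → ℂ → ℂ} {c : Nat.Primes → ℂ} (hSg : Sg.Finite)
    (hC : RichCG Sg S c) (hn1 : 1 < n) (hR : Lim d R) (hX : Exp1 d R c) (φ : Ch)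
    (hφ : Tame n φ) (hoff : Off Sg (sup φ)) :
    ∃ N : ℕ, ∀ W : Ch → ℂ,
      (∀ φ χ : Ch, Tame n φ → Tame n χ → (∃ q : ℕ, q.Prime ∧ χ ^ q = 1) →
        Tst S N (sup φ ∪ sup χ) → Off Sg (sup φ ∪ sup χ) →
        ∑ᶠ ψ ∈ (Subgroup.closure {φ, χ} : Set Ch), wl W R (sup φ ∪ sup χ) ψ = 0) → W φ = 0 := by
  classical
  have hn : 0 < n := by omega
  set E : Set (Ch →₀ ℂ) := {e | ∃ α γ : Ch, Tame n α ∧ Tame n γ ∧
    (∃ q : ℕ, q.Prime ∧ γ ^ q = 1) ∧ Hit S (sup α ∪ sup γ) ∧ Off Sg (sup α ∪ sup γ) ∧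
    e = row R α γ} with hE
  have hfin : ∀ α γ : Ch, Tame n α → Tame n γ → (Subgroup.closure {α, γ} : Set Ch).Finite :=
    fun α γ hα hγ => H52.fin_cl hn hα.exp hγ.exp
  obtain ⟨F, hFE, hF⟩ := fin_sys E φ (by
    intro W hW
    refine t_CORS hI hQ hMID hDIR hAUX hORT hEVP hSUP hSg hC hn1 hR hX ?_ φ hφ hoff
    intro α γ hα hγ hq hit ho
    rw [← row_sum R α γ (hfin α γ hα hγ)]
    exact hW _ ⟨α, γ, hα, hγ, hq, hit, ho, rfl⟩)
  have hch : ∀ e : Ch →₀ ℂ, e ∈ F → ∃ α γ : Ch, Tame n α ∧ Tame n γ ∧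
    (∃ q : ℕ, q.Prime ∧ γ ^ q = 1) ∧ Hit S (sup α ∪ sup γ) ∧ Off Sg (sup α ∪ sup γ) ∧
    e = row R α γ := fun e he => hFE he
  choose! α γ hα hγ hq hit ho he using hch
  have hbd : ∀ e : Ch →₀ ℂ, e ∈ F → ∃ N : ℕ, ∀ l ∈ sup (α e) ∪ sup (γ e), (l : ℕ) ≤ N :=
    fun e hee => bd_fin ((hα e hee).fin.union (hγ e hee).fin)
  choose! N hN using hbd
  refine ⟨∑ e ∈ F, N e, fun W hW => hF W fun e hee => ?_⟩
  rw [he e hee, row_sum R _ _ (hfin _ _ (hα e hee) (hγ e hee))]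
  refine hW _ _ (hα e hee) (hγ e hee) (hq e hee) ⟨hit e hee, fun l hl => ?_⟩ (ho e hee)
  exact (hN e hee l hl).trans (Finset.single_le_sum (f := N) (fun _ _ => Nat.zero_le _) hee)

end Pool.DPC
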