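import Pool.Agent.H29.DPW.Defs
import Pool.Agent.H29.DPV.Lmz

/-!
# DPW: the limit with two auxiliary primes
-/

set_option autoImplicit false

namespace Pool.DPC

open Polynomial Complex

/-- The limit: first the second auxiliary prime, then the first coefficient of the first one. -/
theorem t_lmzG {d m : ℕ} {R : Nat.Primes → ℂ → ℂ} {c : Nat.Primes → ℂ} (hR : Lim d R)
    (hE : Exp2 d R c) {w w' : ℕ → ℂ} {x x' : ℂ} (hx : ‖x‖ = 1) (hx' : ‖x'‖ = 1)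
    (h : ∀ (T : ℝ) (B : ℕ), ∃ p : Nat.Primes, B < (p : ℕ) ∧ T < ‖c p‖ ∧ ∀ B' : ℕ,
      ∃ p' : Nat.Primes, B' < (p' : ℕ) ∧
        ∑ i ∈ un m, w i * (R p (x ^ i) * R p' ((x⁻¹) ^ i)) =
          ∑ i ∈ un m, w' i * (R p (x' ^ i) * R p' ((x'⁻¹) ^ i))) :
    ∑ i ∈ un m, w i * x ^ i = ∑ i ∈ un m, w' i * x' ^ i := by
  obtain ⟨K, B₀, hK⟩ := hE
  have hxi : ‖x⁻¹‖ = 1 := by rw [norm_inv, hx, inv_one]
  have hxi' : ‖x'⁻¹‖ = 1 := by rw [norm_inv, hx', inv_one]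
  have hx0 : x ≠ 0 := by
    intro h
    rw [h, norm_zero] at hx
    exact zero_ne_one hx
  have hx0' : x' ≠ 0 := by
    intro h
    rw [h, norm_zero] at hx'
    exact zero_ne_one hx'
  -- the second prime to infinity
  have s1 : ∀ (T : ℝ) (B : ℕ), ∃ p : Nat.Primes, B < (p : ℕ) ∧ T < ‖c p‖ ∧
      ∑ i ∈ un m, w i * R p (x ^ i) * x ^ (d * i) =
        ∑ i ∈ un m, w' i * R p (x' ^ i) * x' ^ (d * i) := by
    intro T B
    obtain ⟨p, hB, hT, hp⟩ := h T B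
    refine ⟨p, hB, hT, ?_⟩
    have h1 := t_lm1 d m R (fun i => w i * R p (x ^ i)) (fun i => w' i * R p (x' ^ i)) x⁻¹ x'⁻¹
      hR hxi hxi' (by
        intro B'
        obtain ⟨p', hB', he⟩ := hp B'
        refine ⟨p', hB', ?_⟩
        simp only [mul_assoc] at he ⊢
        exact he)
    simp only [inv_inv] at h1
    exact h1
  -- the first prime to infinity
  have s2 : ∑ i ∈ un m, w i = ∑ i ∈ un m, w' i := by
    have h1 := t_lm1 d m R (fun i => w i * x ^ (d * i)) (fun i => w' i * x' ^ (d * i)) x x'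
      hR hx hx' (by
        intro B
        obtain ⟨p, hB, -, hp⟩ := s1 0 B
        refine ⟨p, hB, ?_⟩
        rw [← sub_eq_zero] at hp ⊢
        rw [← hp]
        congr 1 <;> exact Finset.sum_congr rfl fun i _ => by ring)
    have h2 : ∀ (y : ℂ), y ≠ 0 → ∀ i, y ^ (d * i) * (y⁻¹) ^ (d * i) = 1 := by
      intro y hy i
      rw [inv_pow, mul_inv_cancel₀ (pow_ne_zero _ hy)]
    simp only [mul_assoc, h2 x hx0, h2 x' hx0', mul_one] at h1
    exact h1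
  -- the first coefficient to infinity
  set D := ∑ i ∈ un m, w i * x ^ i - ∑ i ∈ un m, w' i * x' ^ i with hD
  set A := ∑ i ∈ un m, ‖w i‖ + ∑ i ∈ un m, ‖w' i‖ with hA
  have s3 : ∀ T : ℝ, ∃ p : Nat.Primes, T < ‖c p‖ ∧ ‖c p‖ * ‖D‖ ≤ K * A := by
    intro T
    obtain ⟨p, hpB, hT, hp⟩ := s1 T B₀
    refine ⟨p, hT, ?_⟩
    have hp0 : (0 : ℝ) < (p : ℕ) := by exact_mod_cast p.2.pos
    have hpc : (((p : ℕ) : ℂ)) ≠ 0 := by exact_mod_cast p.2.ne_zero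
    have e1 := LMZ.one_sum (m := m) (w := w) hx (hK p hpB)
    have e2 := LMZ.one_sum (m := m) (w := w') hx' (hK p hpB)
    rw [hp, s2] at e1
    set Z := ∑ i ∈ un m, w' i * R p (x' ^ i) * x' ^ (d * i)
    set w0 := ∑ i ∈ un m, w' i
    set a := ∑ i ∈ un m, w i * x ^ i
    set a' := ∑ i ∈ un m, w' i * x' ^ i
    have h3 : ‖(-1) ^ d * (c p / ((p : ℕ) : ℂ) * D)‖ ≤ K / (p : ℕ) * A := by
      have h4 : (-1) ^ d * (c p / ((p : ℕ) : ℂ) * D) =
          (Z - (-1) ^ d * (w0 + c p / ((p : ℕ) : ℂ) * a')) -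
            (Z - (-1) ^ d * (w0 + c p / ((p : ℕ) : ℂ) * a)) := by
        rw [hD]; ring
      rw [h4]
      refine (norm_sub_le _ _).trans ?_
      have h8 : K / (p : ℕ) * A = K / (p : ℕ) * ∑ i ∈ un m, ‖w i‖ +
          K / (p : ℕ) * ∑ i ∈ un m, ‖w' i‖ := by rw [hA]; ring
      linarith
    have h5 : ‖((-1 : ℂ) ^ d)‖ = 1 := by
      rw [norm_pow, norm_neg, norm_one, one_pow]
    rw [norm_mul, h5, one_mul, norm_mul, norm_div, Complex.norm_natCast] at h3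
    have h6 : ‖c p‖ / (p : ℕ) * ‖D‖ = ‖c p‖ * ‖D‖ / (p : ℕ) := by ring
    have h7 : K / (p : ℕ) * A = K * A / (p : ℕ) := by ring
    rw [h6, h7, div_le_div_iff_of_pos_right hp0] at h3
    exact h3
  by_contra hne
  have hD0 : 0 < ‖D‖ := norm_pos_iff.2 (sub_ne_zero.2 hne)
  obtain ⟨p, h1, h2⟩ := s3 (K * A / ‖D‖)
  rw [div_lt_iff₀ hD0] at h1
  linarith

end Pool.DPC
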