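import Pool.Agent.H29.DPT.All
import Pool.Agent.H29.DPV.Exp
import Pool.Agent.H29.DPW.Brg
import Pool.Agent.H29.DPW.Sem

/-!
# DPW: the trace criterion for all exponents
-/

set_option autoImplicit false

namespace Pool.DPC

open Polynomial Complex

/-- The trace criterion for all exponents. -/
theorem dpw_all (n d : ℕ) (hn1 : 1 < n) (P : ℕ → ℚ[X]) (hW : Weil d P) (Sg S : Set ℕ)
    (hSg : Sg.Finite)
    (hS : ∀ (T : ℚ) (M a : ℕ), 0 < M → a.Coprime M →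
      (∀ l ∈ Sg, l.Prime → ∀ j : ℕ, l ^ j ∣ M → a ≡ 1 [MOD l ^ j]) →
      ∃ p ∈ S, p.Prime ∧ p ≡ a [MOD M] ∧ T < |(P p).coeff 1|)
    (f₀ : ℕ) (hf₀ : ∀ l ∈ Sg, l.Prime → ¬ l ∣ f₀) :
    ∃ N : ℕ, ∀ (Om : ℝ) (U : Set ℂ) (L : (f : ℕ) → DirichletCharacter ℂ f → ℂ → ℂ), Region U →
      HL n P U L → ∀ k : IntermediateField ℚ ℂ,
      (∀ (f : ℕ) (Y : Subgroup (DirichletCharacter ℂ f)), f ≤ N →
        (∀ l ∈ Sg, l.Prime → ¬ l ∣ f) → FieldData n f Y →
        (∃ a b, Y = Subgroup.closure {a, b} ∧ ∃ q : ℕ, q.Prime ∧ b ^ q = 1) →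
        (∃ l ∈ S, l.Prime ∧ l ∣ f) →
        ∑ᶠ psi ∈ (Y : Set (DirichletCharacter ℂ f)), normValue d Om (L f) psi ∈ k) →
      ∀ Y : Subgroup (DirichletCharacter ℂ f₀), FieldData n f₀ Y → ∀ psi ∈ Y,
        Equivariant k (normValue d Om (L f₀)) psi := by
  classical
  have hn : 0 < n := by omega
  set c : Nat.Primes → ℂ := fun l => (((P (l : ℕ)).coeff 1 : ℚ) : ℂ) with hc
  have hRich : RichCG Sg S c := by
    intro T M a hM ha hone B
    obtain ⟨T', hT'⟩ := exists_rat_gt T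
    obtain ⟨p, hpS, hp, hpa, hpT⟩ := hS (max T' (∑ i ∈ Finset.range (B + 1), |(P i).coeff 1|)) M a
      hM ha hone
    refine ⟨p, ⟨hpS, hp, ?_⟩, ?_, hp, hpa⟩
    · have h1 : T' < |(P p).coeff 1| := (le_max_left _ _).trans_lt hpT
      have h2 : ‖c ⟨p, hp⟩‖ = ((|(P p).coeff 1| : ℚ) : ℝ) := by
        rw [hc]
        simp only [Complex.norm_ratCast]
        push_cast
        rfl
      rw [h2]
      exact hT'.trans (by exact_mod_cast h1)
    · by_contra hlt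
      push Not at hlt
      have h1 : |(P p).coeff 1| ≤ ∑ i ∈ Finset.range (B + 1), |(P i).coeff 1| :=
        Finset.single_le_sum (f := fun i => |(P i).coeff 1|) (fun _ _ => abs_nonneg _)
          (Finset.mem_range.2 (by omega))
      exact absurd hpT (not_lt.2 (h1.trans (le_max_right _ _)))
  have hVCR : VCRStmt := t_vcr (t_val t_td1 t_td3 t_GSM t_lfp)
  by_cases hsqf : Squarefree f₀
  swap
  · exact ⟨0, fun Om U L _ _ k _ Y hY => absurd hY.sqf hsqf⟩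
  obtain ⟨hmul, hone, -, heven⟩ := t_td1
  obtain ⟨hinj, hsurj⟩ := t_td2
  obtain ⟨-, -, hsq, hCd⟩ := t_td3
  obtain ⟨-, -, hspow, -, -, -, htpow, -, -⟩ := t_SUP
  have hpow : ∀ (C : Finset Nat.Primes) (φ : Ch) (i : ℕ), toDC C (φ ^ i) = toDC C φ ^ i := by
    intro C φ i
    induction i with
    | zero => rw [pow_zero, pow_zero, hone]
    | succ i ih => rw [pow_succ, pow_succ, hmul, ih]
  obtain ⟨C, rfl⟩ := hsq f₀ hsqf
  have hCoff : Off Sg (C : Set Nat.Primes) := by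
    intro l hl hlS
    exact hf₀ _ hlS l.2 (((hCd C).2 l).2 hl)
  obtain ⟨N, hN⟩ := t_SEMG (t_grf t_evp t_SUP) t_SUP (d := d) (P := P) (S := S) hn1
    (t_FINC (t_IDXT t_SUP) t_QSM (t_MIDT t_SUP t_evp) t_DIRG t_aux (t_ORTT t_evp) t_evp t_SUP
      hSg hRich hn1 (t_LIM d P hW) (t_EXP d P hW)) (C := (C : Set Nat.Primes)) C.finite_toSet hCoff
  refine ⟨N.factorial, fun Om U L hU hHL k hT Y hY psi hpsi => ?_⟩
  obtain ⟨φ, hφC, rfl⟩ := hsurj C psi
  have hφ : Tame n φ := by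
    refine ⟨C.finite_toSet.subset hφC, ?_, ?_⟩
    · apply hinj C (φ ^ n) 1 ((hspow φ n).trans hφC)
      · intro l hl
        exact absurd rfl hl
      · rw [hpow, hY.exp _ hpsi, hone]
    · exact (heven C φ hφC).1 (hY.even _ hpsi)
  refine t_FLD t_gal k n (cn C) _ _ hn (hY.exp _ hpsi) fun g s hg π => ?_
  have h1 := hN k (V0 d Om L)
    (t_BRGG t_td1 t_td2 t_td3 hVCR t_SUP Sg S N k n d Om P U L hn hW hU hHL hT) g s hg π φ hφ hφC
  have h2 := t_LVL (t_grf t_evp t_SUP) k n d P (V0 d Om L) hn g s hg π φ hφ h1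
    (C : Set Nat.Primes) C.finite_toSet
  rw [← hVCR n d Om P U L hW hU hHL C φ hφ hφC,
    ← hVCR n d Om P U L hW hU hHL C (φ ^ s) (htpow n s φ hφ) ((hspow φ s).trans hφC)] at h2
  unfold Vc at h2
  rw [hpow] at h2
  exact h2

end Pool.DPC
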